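import Pool.Agent.Helper94.SQ.Pars
import Pool.Agent.Helper94.SQ.Const

/-!
# The number of squarefree decimal palindromes

There are `9 * 10 ^ L` decimal palindromes with `2 L + 1` digits.  A proportion
`170 / (27 π²) = 0.6379…` of them is squarefree.  The constant is the product of the proportion
`68 / 90` of the admissible pairs of leading digits (the last two digits must not form a multiple of
`4` or of `25`) and of the factors `1 - 1 / p²` for the primes `p ≠ 2, 5`, whose product is
`25 / (3 π²)`.

The moduli `d²` with `d ≤ 10 ^ (L / 4)` are treated with the distribution of palindromes in residue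
classes, and the larger squares, up to `10 ^ (2 L + 1)`, which are far beyond every known level of
distribution, with the large sieve, a reciprocity argument and the fact that a given integer has few
square roots modulo a power of `10`.
-/

set_option autoImplicit false

namespace Pool.Agent.Results.MP_540de1_nt.SquarefreePalindromes

open Finset Filter

/-- For every `A` and all large `L`, the number of squarefree integers with exactly `2 L + 1` decimal
digits whose digit sequence equals its own reverse is `170 / (3 π²) * 10 ^ L` with an error of at most
`10 ^ L / L ^ A`. -/
theorem result (A : ℕ) : ∀ᶠ L : ℕ in atTop,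
    |(((range (10 ^ (2 * L + 1))).filter (fun n => 10 ^ (2 * L) ≤ n ∧
        (Nat.digits 10 n).reverse = Nat.digits 10 n ∧ Squarefree n)).card : ℝ) -
      170 / (3 * Real.pi ^ 2) * 10 ^ L| ≤ 10 ^ L / (L : ℝ) ^ A := by
  filter_upwards [Pool.Agent.Helper94.SQ.main Pool.Agent.Helper94.SQ.pars
    Pool.Agent.Helper94.SQ.cst A] with L hL
  have h1 : (range (10 ^ (2 * L + 1))).filter (fun n => 10 ^ (2 * L) ≤ n ∧
      (Nat.digits 10 n).reverse = Nat.digits 10 n ∧ Squarefree n) =
      (Pool.Agent.Helper94.SQ.pal L).filter Squarefree := by
    ext n
    simp only [Pool.Agent.Helper94.SQ.pal, mem_filter, mem_range]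
    tauto
  rw [h1]
  exact hL

end Pool.Agent.Results.MP_540de1_nt.SquarefreePalindromes
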