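import Pool.Agent.Helper94.SR.Sixteen
import Pool.Agent.Helper94.SR.Dist

set_option autoImplicit false

/-!
# Squarefree decimal palindromes in patterns: runs of sixteen, progressions, tuples

1. Of seventeen consecutive palindromes with an odd number `2 N + 1` of digits one is always divisible by `9`.  Sixteen
consecutive palindromes can all be squarefree, and a positive proportion of the palindromes with `2 N + 1` digits
begins such a run.
2. A positive proportion of the palindromes with `2 N + 1` digits begins a ten-term arithmetic progression of squarefree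
palindromes with `2 N + 1` digits.  For at least `c 10 ^ N / N ^ 10` of them all ten terms of a progression of this kind
are products of boundedly many DIFFERENT primes, all of them larger than a fixed power of `10 ^ N`.
3. Let `k` palindromes have the same inner digits `u` and arbitrary given outer and middle digits.  The number of the `u`
for which all of them are squarefree is asymptotic to `10 ^ L` times the product of the local densities.

The squares `d ^ 2 > 10 ^ (L / 2)`, for which nothing is known on the distribution of palindromes in residue classes, are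
treated as in `SquarefreePalindromes` (large sieve, reciprocity, few square roots modulo powers of `10`).
-/

namespace Pool.Agent.Results.MP_540de1_nt.SquarefreePatterns

open Finset Filter

/-- The palindromes with exactly `2 N + 1` decimal digits. -/
def pal (N : ℕ) : Finset ℕ :=
  (range (10 ^ (2 * N + 1))).filter (fun n => 10 ^ (2 * N) ≤ n ∧ (Nat.digits 10 n).reverse = Nat.digits 10 n)

/-- The palindromes in the interval `[x, y]`. -/
def pals (x y : ℕ) : Finset ℕ := (Icc x y).filter (fun n => (Nat.digits 10 n).reverse = Nat.digits 10 n)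

/-- The number with the decimal digits `w u m u' w'`, beginning with the last digit; `u'`, `w'` are the reversed lists. -/
def palin (w m : List ℕ) {L : ℕ} (u : Fin L → Fin 10) : ℕ :=
  Nat.ofDigits 10 (w ++ List.ofFn (fun i => (u i : ℕ)) ++ m ++ (List.ofFn (fun i => (u i : ℕ))).reverse ++ w.reverse)

/-- `w` consists of `r` decimal digits; the first one `a` is not zero, and with the second one `b` the number `10 b + a`
is neither divisible by `4` nor by `25`. -/
def Outer (r : ℕ) (w : List ℕ) : Prop :=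
  w.length = r ∧ (∀ d ∈ w, d < 10) ∧ w.headI ≠ 0 ∧
    ¬ 4 ∣ w.getD 0 0 + 10 * w.getD 1 0 ∧ ¬ 25 ∣ w.getD 0 0 + 10 * w.getD 1 0

/-- `m` is a palindromic list of `2 s + 1` decimal digits. -/
def Middle (s : ℕ) (m : List ℕ) : Prop := m.length = 2 * s + 1 ∧ (∀ d ∈ m, d < 10) ∧ m.reverse = m

/-- The number of the residue classes modulo `p ^ 2` that contain one of the `k` numbers with the inner digits `0`. -/
def nu {k : ℕ} (w m : Fin k → List ℕ) (L p : ℕ) : ℕ :=
  ((univ : Finset (Fin k)).image (fun i => palin (w i) (m i) (fun _ : Fin L => (0 : Fin 10)) % p ^ 2)).card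

/-- The product of `1 - ν(p) / p ^ 2` over the primes `p ≤ y`, `p ≠ 2`, `p ≠ 5`. -/
noncomputable def V {k : ℕ} (w m : Fin k → List ℕ) (L y : ℕ) : ℝ :=
  ∏ p ∈ (Icc 1 y).filter (fun p => p.Prime ∧ p ≠ 2 ∧ p ≠ 5), (1 - (nu w m L p : ℝ) / (p : ℝ) ^ 2)

/-- The number of the inner digits for which all the `k` palindromes are squarefree. -/
noncomputable def count {k : ℕ} (w m : Fin k → List ℕ) (L : ℕ) : ℝ := by
  classical exact (((univ : Finset (Fin L → Fin 10)).filter (fun u => ∀ i, Squarefree (palin (w i) (m i) u))).card : ℝ)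

open Classical in
/-- **Squarefree palindromes in patterns.** -/
theorem result :
    -- (1) runs: at most sixteen, and a positive proportion of runs of sixteen
    (∀ N x y : ℕ, 10 ^ (2 * N) ≤ x → y < 10 ^ (2 * N + 1) → (∀ n ∈ pals x y, Squarefree n) → (pals x y).card ≤ 16) ∧
    (∃ c : ℝ, 0 < c ∧ ∀ᶠ N : ℕ in atTop, c * 10 ^ N ≤ (((pal N).filter (fun n =>
      ∃ y < 10 ^ (2 * N + 1), (pals n y).card = 16 ∧ ∀ x ∈ pals n y, Squarefree x)).card : ℝ)) ∧
    -- (2) ten-term progressions of squarefree palindromes, and of products of few different large primes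
    (∃ c : ℝ, 0 < c ∧ ∀ᶠ N : ℕ in atTop, c * 10 ^ N ≤ (((pal N).filter (fun n => ∀ t < 10,
      n + t * (111 * (10 ^ 2 + 10 ^ (2 * N - 4))) ∈ pal N ∧
      Squarefree (n + t * (111 * (10 ^ 2 + 10 ^ (2 * N - 4)))))).card : ℝ)) ∧
    (∃ K : ℕ, 1 ≤ K ∧ ∃ c : ℝ, 0 < c ∧ ∀ᶠ N : ℕ in atTop, c * 10 ^ N / (N : ℝ) ^ 10 ≤ (((pal N).filter (fun n => ∀ t < 10,
      n + t * (111111 * (10 + 10 ^ (2 * N - 6))) ∈ pal N ∧
      Squarefree (n + t * (111111 * (10 + 10 ^ (2 * N - 6)))) ∧
      (n + t * (111111 * (10 + 10 ^ (2 * N - 6)))).primeFactorsList.length ≤ K ∧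
      ∀ p : ℕ, p.Prime → p ∣ n + t * (111111 * (10 + 10 ^ (2 * N - 6))) → 10 ^ N < p ^ K)).card : ℝ)) ∧
    -- (3) tuples
    (∀ k r s : ℕ, 2 ≤ r → ∀ ε : ℝ, 0 < ε → ∃ Y₀ L₀ : ℕ, ∀ L : ℕ, L₀ ≤ L →
      ∀ w m : Fin k → List ℕ, (∀ i, Outer r (w i)) → (∀ i, Middle s (m i)) → ∀ y : ℕ, Y₀ ≤ y →
      |count w m L - 10 ^ L * V w m L y| ≤ ε * 10 ^ L) ∧
    (∀ k r s : ℕ, 2 ≤ r → ∃ c : ℝ, 0 < c ∧ ∃ L₀ : ℕ, ∀ L : ℕ, L₀ ≤ L →
      ∀ w m : Fin k → List ℕ, (∀ i, Outer r (w i)) → (∀ i, Middle s (m i)) →
      (∀ p : ℕ, p.Prime → p ≠ 2 → p ≠ 5 → nu w m L p < p ^ 2) → c * 10 ^ L ≤ count w m L) := by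
  have hadm : ∀ {k r s : ℕ} {w m : Fin k → List ℕ}, (∀ i, Outer r (w i)) → (∀ i, Middle s (m i)) →
      Pool.Agent.Helper94.SR.Adm r s w m := fun hw hm =>
    { len := fun i => (hw i).1
      lenm := fun i => (hm i).1
      dig := fun i => (hw i).2.1
      digm := fun i => (hm i).2.1
      rev := fun i => (hm i).2.2
      head := fun i => (hw i).2.2.1
      last := fun i => (hw i).2.2.2 }
  have hcount : ∀ {k : ℕ} (w m : Fin k → List ℕ) (L : ℕ), count w m L = (((univ : Finset (Fin L → Fin 10)).filter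
      (fun u => ∀ i, Squarefree (Pool.Agent.Helper94.SR.palin (w i) (m i) u))).card : ℝ) := by
    intro k w m L
    unfold count
    rw [Nat.cast_inj]
    apply congrArg
    ext u
    rw [mem_filter, mem_filter]
    rfl
  refine ⟨fun N x y hx hy h => Pool.Agent.Helper94.SR.run_le hx hy h, ?_, ?_, ?_, ?_, ?_⟩
  · obtain ⟨c, hc, h⟩ := Pool.Agent.Helper94.SR.sixteen
    refine ⟨c, hc, h.mono fun N hN => hN.trans (le_of_eq ?_)⟩
    congr 2
  · obtain ⟨c, hc, h⟩ := Pool.Agent.Helper94.SR.ten
    refine ⟨c, hc, h.mono fun N hN => hN.trans (le_of_eq ?_)⟩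
    congr 2
  · obtain ⟨K, hK, c, hc, h⟩ := Pool.Agent.Helper94.AP.tenDistinct
    refine ⟨K, hK, c, hc, h.mono fun N hN => hN.trans (le_of_eq ?_)⟩
    congr 2
  · intro k r s hr ε hε
    obtain ⟨Y₀, L₀, h⟩ := Pool.Agent.Helper94.SR.tuple k r s hr hε
    refine ⟨Y₀, L₀, fun L hL w m hw hm y hy => ?_⟩
    have h1 := h L hL w m (hadm hw hm) y hy
    rw [hcount w m L]
    exact h1
  · intro k r s hr
    obtain ⟨c, hc, L₀, h⟩ := Pool.Agent.Helper94.SR.lower k r s hr
    refine ⟨c, hc, L₀, fun L hL w m hw hm hnu => ?_⟩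
    have h1 := h L hL w m (hadm hw hm) hnu
    rw [hcount w m L]
    exact h1

end Pool.Agent.Results.MP_540de1_nt.SquarefreePatterns
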