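import Pool.Agent.Helper94.TD.Ten

/-!
# Decimal palindromes which are products of at most three different primes

For all large `N`, at least `8 ^ N` of the decimal palindromes with `2 N + 1` digits are products of
at most three different primes, in every reduced residue class.

The library (`MP_540de1_nt.ThreePrimeFactors`, `ThreeFactorsProgressions`) has this for at most three
prime factors which may coincide.  There the digits are weighted: a digit is a sum `i + j`, `i < 5`,
`j < 6`, and the weighted palindromes have a level of distribution which reaches squares of primes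
`p ≤ 10 ^ (0.736 N)` on average.  Here the squares of all larger primes are excluded.  If `c d ^ 2` is a
palindrome for an integer `d ≥ 10 ^ (2 R)` then the last `R` digits of `c d ^ 2` are determined by its
first digits, hence (up to two choices) by `c` and the first digits of `d`, and `d` is one of a few
square roots modulo `10 ^ R`; so for `D ≥ 10 ^ (11 N / 15)` there are at most `O (N 10 ^ (0.9 N))`
palindromes divisible by `d ^ 2` for some `d ≥ D`.  By Cauchy's inequality their weight is at most
`(10 ^ (0.9) * 110) ^ (N / 2)` up to a power of `N`, which is exponentially smaller than the total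
weight `30 ^ N`, because the mean square of the weights of the palindromes is only
`110 ^ N / 30 ^ (2 N)` in total.
-/

set_option autoImplicit false

namespace Pool.Agent.Results.MP_540de1_nt.ThreeDistinctPrimes

open Finset Filter

/-- Let `M ≥ 1` and let `a` be prime to `M`. For all large `N`, at least `8 ^ N` of the `n` with
`10^(2N) ≤ n < 10^(2N+1)` whose decimal digit sequence equals its own reverse are congruent to `a`
modulo `M`, squarefree, and have at most three prime factors, each of them larger than `10^(N/9)`;
so they are products of at most three different primes. -/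
theorem result (M a : ℕ) (hM : 0 < M) (ha : a.Coprime M) :
    ∀ᶠ N : ℕ in atTop, 8 ^ N ≤ ((range (10 ^ (2 * N + 1))).filter (fun n => 10 ^ (2 * N) ≤ n ∧
    (Nat.digits 10 n).reverse = Nat.digits 10 n ∧ n ≡ a [MOD M] ∧ Squarefree n ∧
    n.primeFactorsList.length ≤ 3 ∧
    ∀ p ∈ n.primeFactorsList, (10 : ℝ) ^ ((N : ℝ) / 9) < p)).card := by
  filter_upwards [Pool.Agent.Helper94.TD.three10 hM ha] with N ⟨F, h1, h2⟩
  have h3 : 8 ^ N ≤ F.card := by exact_mod_cast h1
  refine h3.trans ?_
  apply card_le_card
  intro n hn
  obtain ⟨g1, g2, g3, g4, g5, g5', g6⟩ := h2 n hn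
  rw [mem_filter, mem_range]
  refine ⟨g1, g2, g3, g4, g5, g5', fun p hp => ?_⟩
  have h4 := g6 p hp
  have e : (((10 : ℕ) : ℝ)) ^ (1 / 9 * (N : ℝ)) = (10 : ℝ) ^ ((N : ℝ) / 9) := by
    push_cast
    congr 1
    ring
  rw [e] at h4
  exact h4

end Pool.Agent.Results.MP_540de1_nt.ThreeDistinctPrimes
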